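import Pool.Agent.Q111.SZ.LAW1

/-! # Project SZ, job CRT: from one prime to squarefree moduli -/

set_option autoImplicit false
set_option linter.unusedSectionVars false

namespace Pool.Agent.Q111.SZ

open Finset Pool.Agent.Q145.SZ

/-- the inequality for the modulus `W` -/
def PP (W : ℕ) : Prop := ∀ [NeZero W] (k : ℕ) (c : Fin k → ZMod W) (n m : ZMod W),
  n ∈ Gs c → m ∈ Gs c →
  ((Us n m).card : ℝ) * ∑ β ∈ Us n m,
    (((Gs (Fin.cons β c : Fin (k + 1) → ZMod W)).card : ℝ) ^ 4)⁻¹ ≤
    C18 W * (∑ β ∈ Us n m,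
      (((Gs (Fin.cons β c : Fin (k + 1) → ZMod W)).card : ℝ) ^ 2)⁻¹) ^ 2

theorem mem_Us' {W : ℕ} [NeZero W] (n m β : ZMod W) :
    β ∈ Us n m ↔ IsUnit (n + β) ∧ IsUnit (m + β) := by
  classical
  unfold Us
  rw [mem_filter]
  simp

section prod

variable {M N : ℕ} [NeZero M] [NeZero N] [NeZero (M * N)] (h : M.Coprime N)

theorem unit_iff (x : ZMod (M * N)) : IsUnit x ↔
    IsUnit (ZMod.chineseRemainder h x).1 ∧ IsUnit (ZMod.chineseRemainder h x).2 := by
  rw [← Prod.isUnit_iff, MulEquiv.isUnit_map]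

theorem mem_Gs_prod {K : ℕ} (b : Fin K → ZMod (M * N)) (x : ZMod (M * N)) :
    x ∈ Gs b ↔ (ZMod.chineseRemainder h x).1 ∈ Gs (fun i => (ZMod.chineseRemainder h (b i)).1) ∧
      (ZMod.chineseRemainder h x).2 ∈ Gs (fun i => (ZMod.chineseRemainder h (b i)).2) := by
  rw [mem_Gs, mem_Gs, mem_Gs, ← forall_and]
  refine forall_congr' fun i => ?_
  rw [unit_iff h, map_add]
  rfl

theorem card_Gs_prod {K : ℕ} (b : Fin K → ZMod (M * N)) :
    (Gs b).card = (Gs (fun i => (ZMod.chineseRemainder h (b i)).1)).card *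
      (Gs (fun i => (ZMod.chineseRemainder h (b i)).2)).card := by
  classical
  rw [← card_product]
  refine Finset.card_bij (fun x _ => ZMod.chineseRemainder h x) ?_ ?_ ?_
  · intro x hx
    rw [mem_product]
    exact (mem_Gs_prod h b x).mp hx
  · intro x _ y _ hxy
    exact (ZMod.chineseRemainder h).injective hxy
  · intro y hy
    rw [mem_product] at hy
    refine ⟨(ZMod.chineseRemainder h).symm y, ?_, RingEquiv.apply_symm_apply _ y⟩
    rw [mem_Gs_prod h, RingEquiv.apply_symm_apply]
    exact hy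

theorem mem_Us_prod (n m β : ZMod (M * N)) : β ∈ Us n m ↔
    (ZMod.chineseRemainder h β).1 ∈ Us (ZMod.chineseRemainder h n).1 (ZMod.chineseRemainder h m).1 ∧
    (ZMod.chineseRemainder h β).2 ∈
      Us (ZMod.chineseRemainder h n).2 (ZMod.chineseRemainder h m).2 := by
  rw [mem_Us', mem_Us', mem_Us', unit_iff h, unit_iff h (m + β), map_add, map_add]
  exact and_and_and_comm

theorem sum_Us_prod (n m : ZMod (M * N)) (F : ZMod M → ℝ) (G : ZMod N → ℝ) :
    ∑ β ∈ Us n m, F (ZMod.chineseRemainder h β).1 * G (ZMod.chineseRemainder h β).2 =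
      (∑ β ∈ Us (ZMod.chineseRemainder h n).1 (ZMod.chineseRemainder h m).1, F β) *
      ∑ β ∈ Us (ZMod.chineseRemainder h n).2 (ZMod.chineseRemainder h m).2, G β := by
  classical
  rw [sum_mul_sum, ← sum_product']
  refine Finset.sum_bij (fun x _ => ZMod.chineseRemainder h x) ?_ ?_ ?_ ?_
  · intro x hx
    rw [mem_product]
    exact (mem_Us_prod h n m x).mp hx
  · intro x _ y _ hxy
    exact (ZMod.chineseRemainder h).injective hxy
  · intro y hy
    rw [mem_product] at hy
    refine ⟨(ZMod.chineseRemainder h).symm y, ?_, RingEquiv.apply_symm_apply _ y⟩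
    rw [mem_Us_prod h, RingEquiv.apply_symm_apply]
    exact hy
  · intro x _
    rfl

theorem card_cons {k : ℕ} (c : Fin k → ZMod (M * N)) (β : ZMod (M * N)) :
    (Gs (Fin.cons β c : Fin (k + 1) → ZMod (M * N))).card =
      (Gs (Fin.cons (ZMod.chineseRemainder h β).1 (fun i => (ZMod.chineseRemainder h (c i)).1) :
        Fin (k + 1) → ZMod M)).card *
      (Gs (Fin.cons (ZMod.chineseRemainder h β).2 (fun i => (ZMod.chineseRemainder h (c i)).2) :
        Fin (k + 1) → ZMod N)).card := by
  rw [card_Gs_prod h]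
  have h1 : (fun i => (ZMod.chineseRemainder h
      ((Fin.cons β c : Fin (k + 1) → ZMod (M * N)) i)).1) =
      (Fin.cons (ZMod.chineseRemainder h β).1 (fun i => (ZMod.chineseRemainder h (c i)).1) :
        Fin (k + 1) → ZMod M) := by
    funext i
    refine Fin.cases ?_ (fun j => ?_) i
    · rfl
    · rfl
  have h2 : (fun i => (ZMod.chineseRemainder h
      ((Fin.cons β c : Fin (k + 1) → ZMod (M * N)) i)).2) =
      (Fin.cons (ZMod.chineseRemainder h β).2 (fun i => (ZMod.chineseRemainder h (c i)).2) :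
        Fin (k + 1) → ZMod N) := by
    funext i
    refine Fin.cases ?_ (fun j => ?_) i
    · rfl
    · rfl
  rw [h1, h2]

theorem sum_pow_prod {k : ℕ} (c : Fin k → ZMod (M * N)) (n m : ZMod (M * N)) (e : ℕ) :
    ∑ β ∈ Us n m, (((Gs (Fin.cons β c : Fin (k + 1) → ZMod (M * N))).card : ℝ) ^ e)⁻¹ =
      (∑ β ∈ Us (ZMod.chineseRemainder h n).1 (ZMod.chineseRemainder h m).1,
        (((Gs (Fin.cons β (fun i => (ZMod.chineseRemainder h (c i)).1) :
          Fin (k + 1) → ZMod M)).card : ℝ) ^ e)⁻¹) *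
      ∑ β ∈ Us (ZMod.chineseRemainder h n).2 (ZMod.chineseRemainder h m).2,
        (((Gs (Fin.cons β (fun i => (ZMod.chineseRemainder h (c i)).2) :
          Fin (k + 1) → ZMod N)).card : ℝ) ^ e)⁻¹ := by
  rw [← sum_Us_prod h n m (fun β => (((Gs (Fin.cons β
    (fun i => (ZMod.chineseRemainder h (c i)).1) : Fin (k + 1) → ZMod M)).card : ℝ) ^ e)⁻¹)
    (fun β => (((Gs (Fin.cons β (fun i => (ZMod.chineseRemainder h (c i)).2) :
          Fin (k + 1) → ZMod N)).card : ℝ) ^ e)⁻¹)]
  refine sum_congr rfl fun β _ => ?_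
  rw [card_cons h, Nat.cast_mul, mul_pow, mul_inv]

theorem card_Us_prod (n m : ZMod (M * N)) : (Us n m).card =
    (Us (ZMod.chineseRemainder h n).1 (ZMod.chineseRemainder h m).1).card *
    (Us (ZMod.chineseRemainder h n).2 (ZMod.chineseRemainder h m).2).card := by
  have h1 := sum_Us_prod h n m (fun _ => 1) (fun _ => 1)
  simp only [mul_one, sum_const, nsmul_eq_mul] at h1
  exact_mod_cast h1

include h in
theorem C18_mul : C18 (M * N) = C18 M * C18 N := by
  unfold C18
  rw [h.primeFactors_mul, prod_union h.disjoint_primeFactors]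

theorem C18_nonneg (W : ℕ) : 0 ≤ C18 W := prod_nonneg fun p _ => by positivity

include h in
theorem PP_mul (hM : PP M) (hN : PP N) : PP (M * N) := by
  intro _ k c n m hn hm
  rw [sum_pow_prod h c n m 4, sum_pow_prod h c n m 2, card_Us_prod h n m, C18_mul h]
  obtain ⟨n1, n2⟩ := (mem_Gs_prod h c n).mp hn
  obtain ⟨m1, m2⟩ := (mem_Gs_prod h c m).mp hm
  have h1 := hM k _ _ _ n1 m1
  have h2 := hN k _ _ _ n2 m2
  have h3 := mul_le_mul h1 h2 (mul_nonneg (Nat.cast_nonneg _) (sum_nonneg fun _ _ => by positivity))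
    (mul_nonneg (C18_nonneg M) (sq_nonneg _))
  refine le_trans (le_of_eq ?_) (h3.trans (le_of_eq ?_))
  · push_cast
    ring
  · ring

end prod

theorem PP_one : PP 1 := by
  intro _ k c n m hn hm
  have hU : (Us n m).card = 1 := by
    rw [card_eq_one]
    refine ⟨0, ?_⟩
    ext β
    rw [mem_singleton, mem_Us']
    exact ⟨fun _ => Subsingleton.elim _ _,
      fun _ => ⟨isUnit_of_subsingleton _, isUnit_of_subsingleton _⟩⟩
  have hG : ∀ b : Fin (k + 1) → ZMod 1, (Gs b).card = 1 := by
    intro b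
    rw [card_eq_one]
    refine ⟨0, ?_⟩
    ext x
    rw [mem_singleton, mem_Gs]
    exact ⟨fun _ => Subsingleton.elim _ _, fun _ _ => isUnit_of_subsingleton _⟩
  simp only [hG, sum_const, hU]
  unfold C18
  simp

theorem t_CRT : S_CRT := by
  intro hloc W _ hsq
  have key : ∀ W : ℕ, Squarefree W → PP W := by
    intro W
    induction W using Nat.recOnPosPrimePosCoprime with
    | prime_pow p n hp hn =>
      intro hsq
      have hn1 : n = 1 := by
        by_contra hne
        have h2 : 2 ≤ n := by omega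
        have h3 : p * p ∣ p ^ n := by
          rw [← pow_two]
          exact pow_dvd_pow p h2
        exact hp.one_lt.ne' (Nat.isUnit_iff.mp (hsq p h3))
      subst hn1
      rw [pow_one]
      have : Fact p.Prime := ⟨hp⟩
      intro _ k c n m hn hm
      have h4 := hloc p k c n m hn hm
      have h5 : C18 p = 1 + 18 / (p : ℝ) := by
        unfold C18
        rw [hp.primeFactors, prod_singleton]
      rw [h5]
      exact h4
    | zero => intro h; exact absurd h not_squarefree_zero
    | one => intro _; exact PP_one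
    | coprime a b ha hb hab iha ihb =>
      intro hsq
      have : NeZero a := ⟨by omega⟩
      have : NeZero b := ⟨by omega⟩
      have : NeZero (a * b) := ⟨mul_ne_zero (NeZero.ne a) (NeZero.ne b)⟩
      have h1 : PP a := iha hsq.of_mul_left
      have h2 : PP b := ihb hsq.of_mul_right
      intro _
      exact PP_mul hab h1 h2
  intro k c n m hn hm
  exact key W hsq k c n m hn hm

end Pool.Agent.Q111.SZ
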