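import Pool.Agent.Q145.SZ.Stm

/-! # Project SZ, job LAW1: marginals of the first moment -/

set_option autoImplicit false

namespace Pool.Agent.Q111.SZ

open Finset Pool.Agent.Q145.SZ

section law1

variable {W : ℕ} [NeZero W] {K : ℕ}

open Classical in
/-- the sum of the lemma -/
noncomputable def ff (i : Fin K) (n β : ZMod W) : ℝ :=
  ∑ b : Fin K → ZMod W, (if n ∈ Gs b ∧ b i = β then ((Gs b).card : ℝ)⁻¹ else 0)

theorem mem_Gs (b : Fin K → ZMod W) (x : ZMod W) : x ∈ Gs b ↔ ∀ i, IsUnit (x + b i) := by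
  classical
  unfold Gs
  rw [mem_filter]
  simp

theorem mem_Gs_add (b : Fin K → ZMod W) (c x : ZMod W) :
    x ∈ Gs (fun i => b i + c) ↔ x + c ∈ Gs b := by
  rw [mem_Gs, mem_Gs]
  refine forall_congr' fun i => ?_
  have : x + (b i + c) = x + c + b i := by ring
  rw [this]

theorem card_Gs_add (b : Fin K → ZMod W) (c : ZMod W) :
    (Gs (fun i => b i + c)).card = (Gs b).card := by
  classical
  refine Finset.card_bij (fun x _ => x + c) ?_ ?_ ?_
  · intro x hx
    exact (mem_Gs_add b c x).mp hx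
  · intro x _ y _ h
    exact add_right_cancel h
  · intro y hy
    refine ⟨y - c, ?_, sub_add_cancel y c⟩
    rw [mem_Gs_add, sub_add_cancel]
    exact hy

theorem mem_Gs_mul (b : Fin K → ZMod W) (u : (ZMod W)ˣ) (x : ZMod W) :
    (u : ZMod W) * x ∈ Gs (fun i => (u : ZMod W) * b i) ↔ x ∈ Gs b := by
  rw [mem_Gs, mem_Gs]
  refine forall_congr' fun i => ?_
  rw [← mul_add, Units.isUnit_units_mul]

theorem card_Gs_mul (b : Fin K → ZMod W) (u : (ZMod W)ˣ) :
    (Gs (fun i => (u : ZMod W) * b i)).card = (Gs b).card := by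
  classical
  symm
  refine Finset.card_bij (fun x _ => (u : ZMod W) * x) ?_ ?_ ?_
  · intro x hx
    exact (mem_Gs_mul b u x).mpr hx
  · intro x _ y _ h
    exact (Units.mul_right_inj u).mp h
  · intro y hy
    refine ⟨((u⁻¹ : (ZMod W)ˣ) : ZMod W) * y, ?_, by rw [Units.mul_inv_cancel_left]⟩
    rw [← mem_Gs_mul b u, Units.mul_inv_cancel_left]
    exact hy

theorem ff_add (i : Fin K) (n β c : ZMod W) : ff i (n - c) (β + c) = ff i n β := by
  classical
  unfold ff
  rw [← Equiv.sum_comp (Equiv.addRight (fun _ : Fin K => c))]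
  refine Finset.sum_congr rfl fun b _ => ?_
  have e : (Equiv.addRight (fun _ : Fin K => c)) b = fun i => b i + c := rfl
  rw [e]
  simp only [card_Gs_add, mem_Gs_add, sub_add_cancel, add_left_inj]

theorem ff_mul (i : Fin K) (n β : ZMod W) (u : (ZMod W)ˣ) :
    ff i ((u : ZMod W) * n) ((u : ZMod W) * β) = ff i n β := by
  classical
  unfold ff
  rw [← Equiv.sum_comp (Equiv.arrowCongr (Equiv.refl (Fin K)) (Units.mulLeft u))]
  refine Finset.sum_congr rfl fun b _ => ?_
  have e : (Equiv.arrowCongr (Equiv.refl (Fin K)) (Units.mulLeft u)) b =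
      fun i => (u : ZMod W) * b i := rfl
  rw [e]
  simp only [card_Gs_mul, mem_Gs_mul, Units.mul_right_inj]

theorem card_units_filter : ((univ : Finset (ZMod W)).filter fun x => IsUnit x).card =
    Nat.totient W := by
  classical
  rw [← ZMod.card_units_eq_totient, ← Finset.card_univ]
  symm
  refine Finset.card_bij (fun (u : (ZMod W)ˣ) _ => (u : ZMod W)) ?_ ?_ ?_
  · intro u _
    exact mem_filter.mpr ⟨mem_univ _, u.isUnit⟩
  · intro u _ v _ h
    exact Units.ext h
  · intro x hx
    obtain ⟨u, hu⟩ := (mem_filter.mp hx).2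
    exact ⟨u, mem_univ _, hu⟩

theorem ff_not (i : Fin K) (n β : ZMod W) (h : ¬ IsUnit (n + β)) : ff i n β = 0 := by
  classical
  unfold ff
  refine Finset.sum_eq_zero fun b _ => ?_
  rw [if_neg]
  rintro ⟨h1, h2⟩
  apply h
  rw [← h2]
  exact (mem_Gs b n).mp h1 i

theorem ff_unit (i : Fin K) (n β : ZMod W) (h : IsUnit (n + β)) :
    ff i n β = ff i (0 : ZMod W) 1 := by
  obtain ⟨u, hu⟩ := h
  rw [← ff_add i n β n, sub_self, add_comm β n, ← hu]
  have h1 := ff_mul i (0 : ZMod W) 1 u
  rwa [mul_zero, mul_one] at h1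

open Classical in
theorem sum_ff (i : Fin K) : ∑ n : ZMod W, ∑ β : ZMod W, ff i n β = (Ad W K).card := by
  unfold ff
  have h1 : ∑ n : ZMod W, ∑ β : ZMod W, ∑ b : Fin K → ZMod W,
      (if n ∈ Gs b ∧ b i = β then ((Gs b).card : ℝ)⁻¹ else 0) =
      ∑ b : Fin K → ZMod W, ∑ n : ZMod W, (if n ∈ Gs b then ((Gs b).card : ℝ)⁻¹ else 0) := by
    rw [Finset.sum_comm' (t' := univ) (s' := fun _ => univ) (by simp)]
    have h2 : ∀ β : ZMod W, ∑ n : ZMod W, ∑ b : Fin K → ZMod W,
        (if n ∈ Gs b ∧ b i = β then ((Gs b).card : ℝ)⁻¹ else 0) =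
        ∑ b : Fin K → ZMod W, ∑ n : ZMod W,
          (if n ∈ Gs b ∧ b i = β then ((Gs b).card : ℝ)⁻¹ else 0) := fun β => Finset.sum_comm
    simp only [h2]
    rw [Finset.sum_comm]
    refine Finset.sum_congr rfl fun b _ => ?_
    rw [Finset.sum_comm]
    refine Finset.sum_congr rfl fun n _ => ?_
    by_cases h : n ∈ Gs b
    · simp [h]
    · simp [h]
  rw [h1]
  have h2 : ∀ b : Fin K → ZMod W, ∑ n : ZMod W, (if n ∈ Gs b then ((Gs b).card : ℝ)⁻¹ else 0) =
      if (Gs b).Nonempty then 1 else 0 := by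
    intro b
    rw [Finset.sum_ite_mem, Finset.univ_inter, Finset.sum_const, nsmul_eq_mul]
    by_cases h : (Gs b).Nonempty
    · rw [if_pos h]
      exact mul_inv_cancel₀ (by exact_mod_cast h.card_ne_zero)
    · rw [if_neg h]
      rw [Finset.not_nonempty_iff_eq_empty] at h
      rw [h]
      simp
  simp only [h2]
  rw [Finset.sum_ite, Finset.sum_const_zero, add_zero, Finset.sum_const, nsmul_eq_mul, mul_one]
  rfl

open Classical in
theorem law1 (i : Fin K) (n β : ZMod W) : ff i n β =
    if IsUnit (n + β) then ((Ad W K).card : ℝ) / (W * Nat.totient W) else 0 := by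
  have hW : (W : ℝ) ≠ 0 := by exact_mod_cast NeZero.ne W
  have hφ : (Nat.totient W : ℝ) ≠ 0 := by
    have : 0 < Nat.totient W := Nat.totient_pos.mpr (Nat.pos_of_ne_zero (NeZero.ne W))
    exact_mod_cast this.ne'
  have key : ff i (0 : ZMod W) 1 = ((Ad W K).card : ℝ) / (W * Nat.totient W) := by
    have h1 := sum_ff (W := W) i
    have h2 : ∀ n : ZMod W, ∑ β : ZMod W, ff i n β = Nat.totient W * ff i (0 : ZMod W) 1 := by
      intro n
      have h3 : ∀ β : ZMod W, ff i n β =
          (fun x : ZMod W => if IsUnit x then ff i (0 : ZMod W) 1 else 0) (n + β) := by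
        intro β
        change ff i n β = if IsUnit (n + β) then ff i (0 : ZMod W) 1 else 0
        split_ifs with h
        · exact ff_unit i n β h
        · exact ff_not i n β h
      rw [Finset.sum_congr rfl fun β _ => h3 β]
      refine (Equiv.sum_comp (Equiv.addLeft n)
        (fun x : ZMod W => if IsUnit x then ff i (0 : ZMod W) 1 else 0)).trans ?_
      rw [Finset.sum_ite, Finset.sum_const_zero, add_zero, Finset.sum_const, nsmul_eq_mul,
        card_units_filter]
    simp only [h2, Finset.sum_const, Finset.card_univ, ZMod.card, nsmul_eq_mul] at h1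
    rw [eq_div_iff (mul_ne_zero hW hφ), ← h1]
    ring
  split_ifs with h
  · rw [ff_unit i n β h, key]
  · exact ff_not i n β h

end law1

theorem t_LAW1 : S_LAW1 := by
  intro W _ K i n β
  exact law1 i n β

end Pool.Agent.Q111.SZ
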