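import Pool.Agent.Q111.SZ.LAW1

/-! # Project SZ, job LOC: one prime -/

set_option autoImplicit false

namespace Pool.Agent.Q111.SZ

open Finset Pool.Agent.Q145.SZ

/-- the real inequality -/
theorem loc_ineq (p g N t : ℝ) (hp : 2 ≤ p) (hg : 2 ≤ g) (hN : 0 ≤ N) (ht : 0 ≤ t)
    (h : t * (p - 1) ≤ (g - 1) * N) :
    N * ((N - t) * (g ^ 4)⁻¹ + t * ((g - 1) ^ 4)⁻¹) ≤
      (1 + 18 / p) * ((N - t) * (g ^ 2)⁻¹ + t * ((g - 1) ^ 2)⁻¹) ^ 2 := by
  have hg1 : 0 < g - 1 := by linarith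
  have hg0 : 0 < g := by linarith
  have hp0 : 0 < p := by linarith
  have hp1 : 0 < p - 1 := by linarith
  set A : ℝ := (g ^ 2)⁻¹ with hA
  have hA0 : 0 < A := by positivity
  obtain ⟨δ, hδ⟩ : ∃ δ : ℝ, ((g - 1) ^ 2)⁻¹ = A + δ := ⟨((g - 1) ^ 2)⁻¹ - A, by ring⟩
  have hδ' : δ = A * ((2 * g - 1) / (g - 1) ^ 2) := by
    have h1 : δ = ((g - 1) ^ 2)⁻¹ - A := by rw [hδ]; ring
    rw [h1, hA]
    field_simp
    ring
  have hδ0 : 0 ≤ δ := by
    rw [hδ']
    have : 0 ≤ 2 * g - 1 := by linarith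
    positivity
  have hδ1 : δ ≤ 3 * A / (g - 1) := by
    rw [hδ', mul_comm 3 A, mul_div_assoc]
    apply mul_le_mul_of_nonneg_left _ hA0.le
    rw [div_le_div_iff₀ (by positivity) hg1]
    nlinarith
  have h4 : (g ^ 4)⁻¹ = A ^ 2 := by
    rw [hA, inv_pow, ← pow_mul]
  have h5 : ((g - 1) ^ 4)⁻¹ = (A + δ) ^ 2 := by
    rw [← hδ, inv_pow, ← pow_mul]
  rw [h4, h5, hδ]
  have key : t * δ ^ 2 ≤ 18 / p * (N * A ^ 2) := by
    have h6 : δ ^ 2 ≤ (3 * A / (g - 1)) ^ 2 := pow_le_pow_left₀ hδ0 hδ1 2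
    have h7 : t * δ ^ 2 ≤ t * (3 * A / (g - 1)) ^ 2 := mul_le_mul_of_nonneg_left h6 ht
    refine h7.trans ?_
    have h8 : t ≤ (g - 1) * N / (p - 1) := by
      rw [le_div_iff₀ hp1]
      exact h
    have h9 : t * (3 * A / (g - 1)) ^ 2 ≤ (g - 1) * N / (p - 1) * (3 * A / (g - 1)) ^ 2 :=
      mul_le_mul_of_nonneg_right h8 (by positivity)
    refine h9.trans ?_
    have h10 : (g - 1) * N / (p - 1) * (3 * A / (g - 1)) ^ 2 =
        (9 / ((p - 1) * (g - 1))) * (N * A ^ 2) := by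
      field_simp
      ring
    rw [h10]
    apply mul_le_mul_of_nonneg_right _ (by positivity)
    rw [div_le_div_iff₀ (by positivity) hp0]
    nlinarith [mul_nonneg (show 0 ≤ p - 2 by linarith) (show 0 ≤ g - 2 by linarith)]
  have h18 : 0 ≤ 18 / p := by positivity
  have e1 : N * ((N - t) * A ^ 2 + t * (A + δ) ^ 2) =
      (N * A) ^ 2 + 2 * (N * A) * (t * δ) + N * (t * δ ^ 2) := by ring
  have e2 : ((N - t) * A + t * (A + δ)) ^ 2 =
      (N * A) ^ 2 + 2 * (N * A) * (t * δ) + (t * δ) ^ 2 := by ring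
  rw [e1, e2]
  have h11 : N * (t * δ ^ 2) ≤ N * (18 / p * (N * A ^ 2)) := mul_le_mul_of_nonneg_left key hN
  have h12 : 0 ≤ 18 / p * (2 * (N * A) * (t * δ) + (t * δ) ^ 2) := by positivity
  have h13 : 0 ≤ (t * δ) ^ 2 := by positivity
  nlinarith

section loc

variable {p : ℕ} [hp : Fact p.Prime]

theorem mem_Us (n m β : ZMod p) : β ∈ Us n m ↔ β ≠ -n ∧ β ≠ -m := by
  classical
  unfold Us
  rw [mem_filter]
  simp only [mem_univ, true_and, isUnit_iff_ne_zero, ne_eq]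
  have h1 : ∀ x : ZMod p, x + β = 0 ↔ β = -x := by
    intro x
    constructor
    · intro h
      exact eq_neg_of_add_eq_zero_right h
    · rintro rfl
      exact add_neg_cancel x
  rw [h1, h1]

theorem card_Us (n m : ZMod p) : (Us n m).card + ({n, m} : Finset (ZMod p)).card = p := by
  classical
  have h1 : Us n m = (({n, m} : Finset (ZMod p)).image Neg.neg)ᶜ := by
    ext β
    rw [mem_Us, mem_compl, mem_image]
    constructor
    · rintro ⟨h1, h2⟩ ⟨x, hx, rfl⟩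
      rcases mem_insert.mp hx with h | h
      · exact h1 (by rw [h])
      · exact h2 (by rw [mem_singleton.mp h])
    · intro h
      refine ⟨fun h1 => h ⟨n, by simp, h1.symm⟩, fun h1 => h ⟨m, by simp, h1.symm⟩⟩
  have h2 := card_compl_add_card (({n, m} : Finset (ZMod p)).image Neg.neg)
  rw [card_image_of_injective _ neg_injective, ZMod.card] at h2
  rw [h1]
  exact h2

open Classical in
theorem card_T {k : ℕ} (c : Fin k → ZMod p) (n m : ZMod p) (hn : n ∈ Gs c) (hm : m ∈ Gs c) :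
    ((Us n m).filter fun β => -β ∈ Gs c).card + ({n, m} : Finset (ZMod p)).card =
      (Gs c).card := by
  have hsub : ({n, m} : Finset (ZMod p)) ⊆ Gs c := by
    intro x hx
    rcases mem_insert.mp hx with h | h
    · rw [h]; exact hn
    · rw [mem_singleton.mp h]; exact hm
  have h1 : ((Us n m).filter fun β => -β ∈ Gs c).image Neg.neg = Gs c \ {n, m} := by
    ext x
    rw [mem_image, mem_sdiff]
    constructor
    · rintro ⟨β, hβ, rfl⟩
      obtain ⟨h1, h2⟩ := mem_filter.mp hβ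
      rw [mem_Us] at h1
      refine ⟨h2, ?_⟩
      rw [mem_insert, mem_singleton]
      rintro (h | h)
      · exact h1.1 (by rw [← h, neg_neg])
      · exact h1.2 (by rw [← h, neg_neg])
    · rintro ⟨h1, h2⟩
      rw [mem_insert, mem_singleton] at h2
      push Not at h2
      refine ⟨-x, mem_filter.mpr ⟨?_, by rw [neg_neg]; exact h1⟩, neg_neg x⟩
      rw [mem_Us]
      exact ⟨fun h => h2.1 (neg_injective h), fun h => h2.2 (neg_injective h)⟩
  rw [← card_image_of_injective _ (neg_injective (G := ZMod p)), h1]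
  exact card_sdiff_add_card_eq_card hsub

open Classical in
theorem Gs_cons {k : ℕ} (c : Fin k → ZMod p) (β : ZMod p) :
    Gs (Fin.cons β c : Fin (k + 1) → ZMod p) = (Gs c).erase (-β) := by
  ext x
  rw [mem_Gs, mem_erase, mem_Gs, Fin.forall_fin_succ]
  simp only [Fin.cons_zero, Fin.cons_succ]
  rw [isUnit_iff_ne_zero]
  have h1 : x + β ≠ 0 ↔ x ≠ -β := by
    constructor
    · rintro h rfl
      exact h (neg_add_cancel β)
    · intro h h2
      exact h (eq_neg_of_add_eq_zero_left h2)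
  rw [h1]

open Classical in
theorem sum_Us {k : ℕ} (c : Fin k → ZMod p) (n m : ZMod p) (f : ℕ → ℝ) :
    ∑ β ∈ Us n m, f (Gs (Fin.cons β c : Fin (k + 1) → ZMod p)).card =
      (((Us n m).card : ℝ) - ((Us n m).filter fun β => -β ∈ Gs c).card) * f (Gs c).card +
        ((Us n m).filter fun β => -β ∈ Gs c).card * f ((Gs c).card - 1) := by
  rw [← sum_filter_add_sum_filter_not (Us n m) (fun β => -β ∈ Gs c)]
  have h1 : ∑ β ∈ (Us n m).filter (fun β => -β ∈ Gs c),
      f (Gs (Fin.cons β c : Fin (k + 1) → ZMod p)).card =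
      ((Us n m).filter fun β => -β ∈ Gs c).card * f ((Gs c).card - 1) := by
    rw [sum_congr rfl (g := fun _ => f ((Gs c).card - 1)) (fun β hβ => by
      rw [Gs_cons, card_erase_of_mem (mem_filter.mp hβ).2]), sum_const, nsmul_eq_mul]
  have h2 : ∑ β ∈ (Us n m).filter (fun β => ¬ -β ∈ Gs c),
      f (Gs (Fin.cons β c : Fin (k + 1) → ZMod p)).card =
      (((Us n m).card : ℝ) - ((Us n m).filter fun β => -β ∈ Gs c).card) * f (Gs c).card := by
    rw [sum_congr rfl (g := fun _ => f (Gs c).card) (fun β hβ => by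
      rw [Gs_cons, erase_eq_of_notMem (mem_filter.mp hβ).2]), sum_const, nsmul_eq_mul]
    congr 1
    have h3 := card_filter_add_card_filter_not (s := Us n m) (fun β => -β ∈ Gs c)
    have h4 : (((Us n m).filter fun β => -β ∈ Gs c).card : ℝ) +
      ((Us n m).filter fun β => ¬ -β ∈ Gs c).card = (Us n m).card := by exact_mod_cast h3
    linarith
  rw [h1, h2, add_comm]

theorem loc_main {k : ℕ} (c : Fin k → ZMod p) (n m : ZMod p) (hn : n ∈ Gs c) (hm : m ∈ Gs c) :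
    ((Us n m).card : ℝ) * ∑ β ∈ Us n m,
      (((Gs (Fin.cons β c : Fin (k + 1) → ZMod p)).card : ℝ) ^ 4)⁻¹ ≤
    (1 + 18 / (p : ℝ)) * (∑ β ∈ Us n m,
      (((Gs (Fin.cons β c : Fin (k + 1) → ZMod p)).card : ℝ) ^ 2)⁻¹) ^ 2 := by
  classical
  rw [sum_Us c n m (fun x => ((x : ℝ) ^ 4)⁻¹), sum_Us c n m (fun x => ((x : ℝ) ^ 2)⁻¹)]
  have h1 := card_Us n m
  have h2 := card_T c n m hn hm
  have h3 : 1 ≤ ({n, m} : Finset (ZMod p)).card := by
    rw [Nat.one_le_iff_ne_zero]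
    exact (insert_nonempty n {m}).card_ne_zero
  have h4 : (Gs c).card ≤ p := by
    have := card_le_univ (Gs c)
    rwa [ZMod.card] at this
  set t := ((Us n m).filter fun β => -β ∈ Gs c).card with ht
  set N := (Us n m).card with hN
  set ν := ({n, m} : Finset (ZMod p)).card with hν
  set g := (Gs c).card with hg
  have hp2 : (2 : ℝ) ≤ p := by exact_mod_cast hp.out.two_le
  rcases Nat.eq_zero_or_pos t with h0 | hpos
  · rw [h0]
    push_cast
    have h18 : 0 ≤ 18 / (p : ℝ) := by positivity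
    have e1 : (N : ℝ) * (((N : ℝ) - 0) * ((g : ℝ) ^ 4)⁻¹ + 0 * (((g - 1 : ℕ) : ℝ) ^ 4)⁻¹) =
        (N * ((g : ℝ) ^ 2)⁻¹) ^ 2 := by
      rw [mul_pow, inv_pow, ← pow_mul]
      ring
    have e2 : (((N : ℝ) - 0) * ((g : ℝ) ^ 2)⁻¹ + 0 * (((g - 1 : ℕ) : ℝ) ^ 2)⁻¹) ^ 2 =
        (N * ((g : ℝ) ^ 2)⁻¹) ^ 2 := by ring
    rw [e1, e2]
    nlinarith [sq_nonneg ((N : ℝ) * ((g : ℝ) ^ 2)⁻¹)]
  · have hg2 : 2 ≤ g := by omega
    have hcast : ((g - 1 : ℕ) : ℝ) = (g : ℝ) - 1 := by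
      rw [Nat.cast_sub (by omega)]
      norm_num
    rw [hcast]
    refine loc_ineq p g N t hp2 (by exact_mod_cast hg2) (Nat.cast_nonneg _) (Nat.cast_nonneg _) ?_
    have e1 : (N : ℝ) = p - ν := by
      have : (N : ℝ) + ν = p := by exact_mod_cast h1
      linarith
    have e2 : (t : ℝ) = g - ν := by
      have : (t : ℝ) + ν = g := by exact_mod_cast h2
      linarith
    have e3 : (1 : ℝ) ≤ ν := by exact_mod_cast h3
    have e4 : (g : ℝ) ≤ p := by exact_mod_cast h4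
    rw [e1, e2]
    nlinarith [mul_nonneg (show (0 : ℝ) ≤ ν - 1 by linarith) (show (0 : ℝ) ≤ p - g by linarith)]

end loc

theorem t_LOC : S_LOC := by
  intro p _ k c n m hn hm
  exact loc_main c n m hn hm

end Pool.Agent.Q111.SZ
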