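import Pool.Agent.Q145.SZ.Stm
import Mathlib.NumberTheory.Chebyshev
import Mathlib.NumberTheory.Primorial

/-! # Project SZ, job PWB: the size of the product of the primes up to `z` -/

set_option autoImplicit false

namespace Pool.Agent.Q111.SZ

open Finset Filter Pool.Agent.Q145.SZ

theorem PW_eq (z : ℕ) : PW z = primorial z := by
  unfold PW primorial
  apply prod_congr _ fun _ _ => rfl
  ext p
  simp only [mem_filter, mem_Icc, mem_range]
  constructor
  · rintro ⟨⟨_, h1⟩, h2⟩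
    exact ⟨by omega, h2⟩
  · rintro ⟨h1, h2⟩
    exact ⟨⟨h2.pos, by omega⟩, h2⟩

theorem PW_upper (z : ℕ) : (PW z : ℝ) ≤ 4 ^ z := by
  rw [PW_eq]
  exact_mod_cast primorial_le_four_pow z

theorem PW_lower : ∃ z₀ : ℕ, ∀ z : ℕ, z₀ ≤ z → Real.exp ((z : ℝ) / 2) ≤ PW z := by
  have h1 : ∀ᶠ x : ℝ in atTop, ‖Real.log x‖ ≤ (1 / 25) * ‖x ^ (1 / 2 : ℝ)‖ :=
    (isLittleO_log_rpow_atTop (by norm_num : (0 : ℝ) < 1 / 2)).bound (by norm_num)
  have h2 := (tendsto_natCast_atTop_atTop (R := ℝ)).eventually h1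
  obtain ⟨z₀, hz₀⟩ := eventually_atTop.1 h2
  refine ⟨max z₀ 2, fun z hz => ?_⟩
  have hz1 : z₀ ≤ z := (le_max_left _ _).trans hz
  have hz2 : 2 ≤ z := (le_max_right _ _).trans hz
  have hzr : (2 : ℝ) ≤ z := by exact_mod_cast hz2
  have h3 := hz₀ z hz1
  rw [← Real.sqrt_eq_rpow, Real.norm_of_nonneg (Real.log_nonneg (by linarith)),
    Real.norm_of_nonneg (Real.sqrt_nonneg _)] at h3
  have h4 := Chebyshev.theta_ge z
  have h5 : Real.log ((z : ℝ) + 1) ≤ 2 * Real.log z := by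
    have e : (2 : ℝ) * Real.log z = Real.log ((z : ℝ) ^ 2) := by
      rw [Real.log_pow]
      norm_num
    rw [e]
    apply Real.log_le_log (by linarith)
    nlinarith
  have h6 : √(z : ℝ) * √(z : ℝ) = z := Real.mul_self_sqrt (by linarith)
  have h7 : 1 ≤ √(z : ℝ) := by
    rw [Real.one_le_sqrt]
    linarith
  have h8 : (0.6931471803 : ℝ) < Real.log 2 := Real.log_two_gt_d9
  have h9 : (z : ℝ) / 2 ≤ Chebyshev.theta (z : ℝ) := by
    nlinarith
  rw [PW_eq]
  have h10 : Chebyshev.theta (z : ℝ) = Real.log (primorial z) := by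
    rw [Chebyshev.theta_eq_log_primorial, Nat.floor_natCast]
  rw [h10] at h9
  calc Real.exp ((z : ℝ) / 2) ≤ Real.exp (Real.log (primorial z)) := Real.exp_le_exp.2 h9
    _ = primorial z := Real.exp_log (by exact_mod_cast primorial_pos z)

end Pool.Agent.Q111.SZ
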