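import Pool.Agent.Q145.SZ.Stm3
import Pool.Agent.Q111.SZ.PWB0

/-! # Project SZ, job PWB -/

set_option autoImplicit false

namespace Pool.Agent.Q111.SZ

open Pool.Agent.Q145.SZ

theorem t_PWB : S_PWB := ⟨PW_upper, PW_lower⟩

end Pool.Agent.Q111.SZ
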