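import Pool.Agent.Q145.SZ.Stm
import Mathlib.NumberTheory.Chebyshev

/-! # Project SZ, job SQ3: the sum of the cubes of the reciprocals of primes -/

set_option autoImplicit false

namespace Pool.Agent.Q111.SZ

open Finset Pool.Agent.Q145.SZ

theorem theta_succ (n : ℕ) : Chebyshev.theta ((n + 1 : ℕ) : ℝ) =
    Chebyshev.theta (n : ℝ) + (if (n + 1).Prime then Real.log ((n + 1 : ℕ) : ℝ) else 0) := by
  rw [Chebyshev.theta_eq_sum_Icc, Chebyshev.theta_eq_sum_Icc, Nat.floor_natCast, Nat.floor_natCast,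
    ← Finset.insert_Icc_right_eq_Icc_add_one (Nat.zero_le _), filter_insert]
  split_ifs with h1
  · rw [sum_insert (by simp), add_comm]
  · simp

/-- partial sums of `log p / p ^ 3` -/
noncomputable def AA (z w : ℕ) : ℝ := ∑ p ∈ (Ioc z w).filter Nat.Prime, Real.log p / (p : ℝ) ^ 3

theorem AA_succ {z w : ℕ} (h : z ≤ w) : AA z (w + 1) = AA z w +
    (if (w + 1).Prime then Real.log ((w + 1 : ℕ) : ℝ) else 0) / ((w + 1 : ℕ) : ℝ) ^ 3 := by
  unfold AA
  rw [← Finset.insert_Ioc_right_eq_Ioc_add_one h, filter_insert]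
  split_ifs with h1
  · rw [sum_insert (by simp), add_comm]
  · simp

theorem AA_le {z w : ℕ} (hz : 1 ≤ z) (h : z ≤ w) : AA z w ≤
    Chebyshev.theta (w : ℝ) / (w : ℝ) ^ 3 + Real.log 4 * (3 / 2) * (1 / (z : ℝ) ^ 2 - 1 / (w : ℝ) ^ 2) := by
  induction w, h using Nat.le_induction with
  | base =>
    have : AA z z = 0 := by simp [AA]
    rw [this, sub_self, mul_zero, add_zero]
    exact div_nonneg (Chebyshev.theta_nonneg _) (by positivity)
  | succ w h ih =>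
    have hw : (0 : ℝ) < w := by exact_mod_cast (by omega : 0 < w)
    have h1 := Chebyshev.theta_le_log4_mul_x hw.le
    have h2 : Chebyshev.theta (w : ℝ) * (1 / (w : ℝ) ^ 3 - 1 / ((w + 1 : ℕ) : ℝ) ^ 3) ≤
        Real.log 4 * (3 / 2) * (1 / (w : ℝ) ^ 2 - 1 / ((w + 1 : ℕ) : ℝ) ^ 2) := by
      have h3 : (0 : ℝ) ≤ 1 / (w : ℝ) ^ 3 - 1 / ((w + 1 : ℕ) : ℝ) ^ 3 := by
        rw [sub_nonneg]
        apply one_div_le_one_div_of_le (by positivity)
        apply pow_le_pow_left₀ hw.le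
        push_cast
        linarith
      refine (mul_le_mul_of_nonneg_right h1 h3).trans ?_
      have h4 : (w : ℝ) * (1 / (w : ℝ) ^ 3 - 1 / ((w + 1 : ℕ) : ℝ) ^ 3) ≤
          (3 / 2) * (1 / (w : ℝ) ^ 2 - 1 / ((w + 1 : ℕ) : ℝ) ^ 2) := by
        push_cast
        rw [← sub_nonneg]
        have h5 : 3 / 2 * (1 / (w : ℝ) ^ 2 - 1 / ((w : ℝ) + 1) ^ 2) -
            w * (1 / (w : ℝ) ^ 3 - 1 / ((w : ℝ) + 1) ^ 3) =
            ((3 / 2) * w + 1 / 2) / ((w : ℝ) ^ 2 * ((w : ℝ) + 1) ^ 3) := by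
          field_simp
          ring
        rw [h5]
        positivity
      have h6 : (0 : ℝ) ≤ Real.log 4 := Real.log_nonneg (by norm_num)
      calc Real.log 4 * w * (1 / (w : ℝ) ^ 3 - 1 / ((w + 1 : ℕ) : ℝ) ^ 3)
          = Real.log 4 * (w * (1 / (w : ℝ) ^ 3 - 1 / ((w + 1 : ℕ) : ℝ) ^ 3)) := by ring
        _ ≤ Real.log 4 * ((3 / 2) * (1 / (w : ℝ) ^ 2 - 1 / ((w + 1 : ℕ) : ℝ) ^ 2)) :=
            mul_le_mul_of_nonneg_left h4 h6
        _ = _ := by ring
    rw [AA_succ h, theta_succ w, add_div]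
    have e1 : Chebyshev.theta (w : ℝ) * (1 / (w : ℝ) ^ 3 - 1 / ((w + 1 : ℕ) : ℝ) ^ 3) =
      Chebyshev.theta (w : ℝ) / (w : ℝ) ^ 3 - Chebyshev.theta (w : ℝ) / ((w + 1 : ℕ) : ℝ) ^ 3 := by ring
    rw [e1] at h2
    linarith

theorem AA_le' {z w : ℕ} (hz : 1 ≤ z) (h : z ≤ w) : AA z w ≤ Real.log 4 * (3 / 2) / (z : ℝ) ^ 2 := by
  refine (AA_le hz h).trans ?_
  have hw : (0 : ℝ) < w := by exact_mod_cast (by omega : 0 < w)
  have h1 : Chebyshev.theta (w : ℝ) / (w : ℝ) ^ 3 ≤ Real.log 4 * (1 / (w : ℝ) ^ 2) := by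
    rw [div_le_iff₀ (by positivity)]
    refine (Chebyshev.theta_le_log4_mul_x hw.le).trans (le_of_eq ?_)
    field_simp
  have h6 : (0 : ℝ) ≤ Real.log 4 := Real.log_nonneg (by norm_num)
  have h7 : (0 : ℝ) ≤ Real.log 4 * (1 / (w : ℝ) ^ 2) := by positivity
  have e1 : Real.log 4 * (3 / 2) / (z : ℝ) ^ 2 = Real.log 4 * (3 / 2) * (1 / (z : ℝ) ^ 2) := by ring
  rw [e1, mul_sub]
  linarith

theorem t_SQ3 : S_SQ3 := by
  refine ⟨Real.log 4 * (3 / 2), mul_pos (Real.log_pos (by norm_num)) (by norm_num), ?_⟩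
  intro z w hz
  have hlz : 0 < Real.log z := Real.log_pos (by exact_mod_cast (by omega : 1 < z))
  have hzp : (0 : ℝ) < z := by exact_mod_cast (by omega : 0 < z)
  rcases le_or_gt z w with h | h
  · have h1 : (∑ p ∈ (Ioc z w).filter Nat.Prime, 1 / (p : ℝ) ^ 3) * Real.log z ≤ AA z w := by
      unfold AA
      rw [sum_mul]
      apply sum_le_sum
      intro p hp
      rw [mem_filter, mem_Ioc] at hp
      have hp0 : (0 : ℝ) < p := by exact_mod_cast hp.2.pos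
      rw [div_mul_eq_mul_div, one_mul]
      apply div_le_div_of_nonneg_right _ (by positivity)
      exact Real.log_le_log hzp (by exact_mod_cast hp.1.1.le)
    rw [← le_div_iff₀ hlz] at h1
    refine h1.trans ?_
    rw [← div_div]
    exact div_le_div_of_nonneg_right (AA_le' (by omega) h) hlz.le
  · rw [Ioc_eq_empty (by omega), filter_empty, sum_empty]
    have := Real.log_nonneg (by norm_num : (1 : ℝ) ≤ 4)
    positivity

end Pool.Agent.Q111.SZ
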